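import Pool.Agent.Y871.LW.Sq

/-!
# Szemerédi's theorem for the primes `|n² + a|` in windows of logarithmic length

For almost all integers `a` the set of the `n` in a window of length `(log X) ^ B` for which `|n² + a|` is
prime satisfies Szemerédi's theorem: in every subset `S` (large enough) all but few elements lie in
`k`-term progressions in `S`. Near `√(-a)`, where such windows are known to contain the number of primes
`|n² + a|` predicted by Hardy and Littlewood, few means `ε` times the number of these primes.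
-/

set_option autoImplicit false

namespace Pool.Agent.Results.MP_391708_nt.LogarithmicWindows

open Finset Filter Topology

/-- The `n` with `m < n ≤ N` such that `|n² + a|` is a prime. -/
def P (a : ℤ) (m N : ℕ) : Finset ℕ :=
  (Ioc m N).filter (fun n : ℕ => Nat.Prime ((n : ℤ) ^ 2 + a).natAbs)

/-- The sum of `1 / log |n² + a|` over `m < n ≤ N`. -/
noncomputable def M (a : ℤ) (m N : ℕ) : ℝ := ∑ n ∈ Ioc m N, 1 / Real.log (|(n : ℤ) ^ 2 + a| : ℤ)

/-- The product over the odd primes `w ≤ z` of `1 - (-a | w) / (w - 1)`. -/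
noncomputable def hcut (a : ℤ) (z : ℕ) : ℝ :=
  ∏ w ∈ (Finset.range (z + 1)).filter (fun w => Nat.Prime w ∧ w ≠ 2),
    (1 - (jacobiSym (-a) w : ℝ) / ((w : ℝ) - 1))

/-- `n` is a term of a progression of `k` terms in `S` with a difference `1 ≤ d ≤ D`. -/
def InProgression (S : Finset ℕ) (k : ℕ) (D : ℝ) (n : ℕ) : Prop :=
  ∃ b d : ℕ, 1 ≤ d ∧ (d : ℝ) ≤ D ∧ (∀ j < k, b + j * d ∈ S) ∧ ∃ j < k, n = b + j * d

open Classical in
/-- The elements of `S` which do not lie in such a progression. -/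
noncomputable def outside (S : Finset ℕ) (k : ℕ) (D : ℝ) : Finset ℕ :=
  S.filter (fun n => ¬ InProgression S k D n)

/-- **Primes `|n² + a|` in windows of logarithmic length.**

(I) For all `k` and `ε > 0` there are `B` and `X₀` such that for `X ≥ X₀`, for EVERY interval
`(A, A + X]` of integers and EVERY window `(m, m + H]` with `H ≥ (log X) ^ B`, all but at most `ε X` of the
integers `a` in `(A, A + X]` satisfy: in every set `S` of numbers `n` of the window for which `|n² + a|`
is prime, all but at most `ε H / log X` of the elements lie in `k`-term progressions in `S` with a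
difference `≤ (log X) ^ B`.

(II) For all `k`, `κ, ε > 0` and `C` there are `B` and `X₀` such that for `X ≥ X₀` and every `H` with
`(log X) ^ B ≤ H ≤ √X (log X) ^ C` all but at most `ε X` of the integers `-X ≤ a ≤ -1` satisfy: `-a` is not
a square, the product `h_a` converges to a number `h > 0`, and in ALL windows `(m, N]` with
`H ≤ N - m ≤ κ H` and `|m - √(-a)| ≤ κ H` the number of primes `|n² + a|` is `h ∑ 1 / log |n² + a|` up to a
relative error `ε`, and in every subset `S` of the set of these `n` all elements, with the exception of at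
most `ε` times the number of these primes, lie in `k`-term progressions in `S` with a difference
`≤ (log X) ^ B`. -/
theorem result :
    (∀ (k : ℕ) (ε : ℝ), 1 ≤ k → 0 < ε → ∃ B X₀ : ℕ, ∀ X : ℕ, X₀ ≤ X → ∀ (A : ℤ) (m H : ℕ),
      Real.log X ^ B ≤ H → ∃ Bad ⊆ Ioc A (A + X), (#Bad : ℝ) ≤ ε * X ∧
      ∀ a ∈ Ioc A (A + X), a ∉ Bad → ∀ S ⊆ P a m (m + H),
        (#(outside S k (Real.log X ^ B)) : ℝ) ≤ ε * H / Real.log X) ∧
    (∀ (k : ℕ) (κ ε : ℝ) (C : ℕ), 1 ≤ k → 0 < κ → 0 < ε → ∃ B X₀ : ℕ, ∀ X : ℕ, X₀ ≤ X → ∀ H : ℕ,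
      Real.log X ^ B ≤ H → (H : ℝ) ≤ √X * Real.log X ^ C →
      ∃ Bad ⊆ Icc (-(X : ℤ)) (-1), (#Bad : ℝ) ≤ ε * X ∧
      ∀ a ∈ Icc (-(X : ℤ)) (-1), a ∉ Bad → ¬ IsSquare (-a) ∧
      ∃ h : ℝ, 0 < h ∧ Tendsto (fun z : ℕ => hcut a z) atTop (𝓝 h) ∧
      ∀ m N : ℕ, m + H ≤ N → (N : ℝ) - m ≤ κ * H → |(m : ℝ) - √(-(a : ℝ))| ≤ κ * H →
        |(#(P a m N) : ℝ) - h * M a m N| ≤ ε * (h * M a m N) ∧
        ∀ S ⊆ P a m N, (#(outside S k (Real.log X ^ B)) : ℝ) ≤ ε * #(P a m N)) := by
  classical
  constructor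
  · intro k ε hk hε
    obtain ⟨B, X₀, h0⟩ := Pool.Agent.Y871.LW.one k hk ε hε
    refine ⟨B, X₀, fun X hX A m H hH => ?_⟩
    have h1 := h0 X H m hX hH A
    refine ⟨(Ioc A (A + X)).filter (fun a => ¬ Pool.Agent.Y871.LW.Cov (Pool.Agent.Y871.LW.sq a m (m + H)) k
      (Real.log X ^ B) (ε * H / Real.log X)), filter_subset _ _, h1, ?_⟩
    intro a ha hab S hS
    have h2 : Pool.Agent.Y871.LW.Cov (Pool.Agent.Y871.LW.sq a m (m + H)) k
      (Real.log X ^ B) (ε * H / Real.log X) := by
      by_contra hc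
      exact hab (mem_filter.2 ⟨ha, hc⟩)
    exact h2 S hS (outside S k (Real.log X ^ B)) (filter_subset _ _) (fun n hn => (mem_filter.1 hn).2)
  · intro k κ ε C hk hκ hε
    obtain ⟨B, X₀, h0⟩ := Pool.Agent.Y871.LW.near k hk κ ε C hκ hε
    refine ⟨B, X₀, fun X hX H hH hHX => ?_⟩
    obtain ⟨Bad, hB1, hB2⟩ := h0 X hX H hH hHX
    obtain ⟨Bd, hBd⟩ : ∃ Bd, Bd = (Icc 1 X).filter (fun K => K ∈ Bad) := ⟨_, rfl⟩
    refine ⟨Bd.image (fun K : ℕ => -(K : ℤ)), ?_, ?_, ?_⟩
    · intro a ha
      rw [mem_image] at ha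
      obtain ⟨K, hK, rfl⟩ := ha
      rw [hBd, mem_filter, mem_Icc] at hK
      rw [mem_Icc]
      constructor <;> omega
    · refine le_trans ?_ hB1
      rw [Nat.cast_le]
      refine card_image_le.trans (card_le_card ?_)
      intro K hK
      rw [hBd, mem_filter] at hK
      exact hK.2
    · intro a ha haB
      rw [mem_Icc] at ha
      obtain ⟨K, rfl⟩ : ∃ K : ℕ, a = -(K : ℤ) := ⟨a.natAbs, by omega⟩
      have hK : K ∈ Icc 1 X := by rw [mem_Icc]; omega
      have hKB : K ∉ Bad := by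
        intro hc
        apply haB
        rw [mem_image]
        exact ⟨K, by rw [hBd, mem_filter]; exact ⟨hK, hc⟩, rfl⟩
      obtain ⟨hvn, h, hh, hlim, hwin⟩ := hB2 K hK hKB
      have hv : ∀ n : ℕ, ((n : ℤ) ^ 2 + -(K : ℤ)).natAbs = Pool.Agent.TH892.SW.vn K n := by
        intro n
        unfold Pool.Agent.TH892.SW.vn
        rw [← sub_eq_add_neg]
      have habs : ∀ n : ℕ, |(n : ℤ) ^ 2 + -(K : ℤ)| = (Pool.Agent.TH892.SW.vn K n : ℤ) := by
        intro n
        rw [← hv n, Int.abs_eq_natAbs]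
      have hM : ∀ m N : ℕ, M (-(K : ℤ)) m N =
          ∑ i ∈ Ioc m N, Pool.Agent.TH892.SW.wt (Pool.Agent.TH892.SW.vn K i) := by
        intro m N
        unfold M Pool.Agent.TH892.SW.wt
        simp_rw [habs]
        simp only [Int.cast_natCast]
      refine ⟨?_, h, hh, ?_, ?_⟩
      · rintro ⟨r, hr⟩
        have h1 := hvn r.natAbs
        have h2 : Pool.Agent.TH892.SW.vn K r.natAbs = 0 := by
          rw [← hv]
          have h3 : ((r.natAbs : ℕ) : ℤ) ^ 2 = (K : ℤ) := by
            rw [Int.natAbs_sq, pow_two, ← hr, neg_neg]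
          rw [h3, add_neg_cancel]
          rfl
        omega
      · have e : (fun z : ℕ => hcut (-(K : ℤ)) z) = fun z => Pool.Agent.TH892.SW.HP K z := by
          funext z
          unfold hcut Pool.Agent.TH892.SW.HP
          rw [neg_neg]
        rw [e]
        exact hlim
      · intro m N hmN hNH hmK
        have e : √(-(((-(K : ℤ) : ℤ)) : ℝ)) = √(K : ℝ) := by
          congr 1
          push_cast
          ring
        rw [e] at hmK
        obtain ⟨h1, h2⟩ := hwin m N hmN hNH hmK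
        rw [hM]
        refine ⟨h1, ?_⟩
        intro S hS
        exact h2 S hS (outside S k (Real.log X ^ B)) (filter_subset _ _)
          (fun n hn => (mem_filter.1 hn).2)

end Pool.Agent.Results.MP_391708_nt.LogarithmicWindows
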