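import Pool.Agent.Y843.AC.Gen
import Pool.Agent.Y843.AC.Lin
import Pool.Agent.Y843.QD.PT
import Pool.Agent.Y843.QD.Low
import Pool.Agent.Y843.HG.GoldP
import Pool.Agent.Y843.AQ.Sh

/-!
# Progressions of `n` with `|n ^ 2 + a|` prime or almost prime: the exact order of their number, for all `a`

The number of the progressions of `k` terms, with differences at most `D`, of integers `n` of an interval of
length `X` for which `|n ^ 2 + a|` has at most three prime factors is of the order `X D / log ^ k X`, for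
every `a` not of the form `-m ^ 2`. Uniformly in all integers `a`, and in all vectors `a = (a 1, …, a s)`: every
dense subset of the set of the `n` with all `n ^ 2 + a i` prime, or free of small prime factors, has the
expected order `X D V ^ k` of progressions, and conversely. For almost all vectors `a` the `n` with all
`n ^ 2 + a i` prime have this number of progressions.
-/

set_option autoImplicit false

namespace Pool.Agent.Results.MP_391708_nt.ProgressionCounts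

open Finset

/-- No prime divides `∏ (n ^ 2 + a i)` for all `n`. -/
def Possible {s : ℕ} (a : Fin s → ℤ) : Prop :=
  ∀ p : ℕ, p.Prime → ∃ n : ℕ, ∀ i, ¬ (p : ℤ) ∣ (n : ℤ) ^ 2 + a i

open Classical in
/-- The residues `c` modulo `p` for which `p` divides some `c ^ 2 + a i`. -/
noncomputable def roots {s : ℕ} (a : Fin s → ℤ) (p : ℕ) : Finset ℕ :=
  (range p).filter (fun c => ∃ i, (p : ℤ) ∣ (c : ℤ) ^ 2 + a i)

/-- The proportion of the integers `n` such that no prime `≤ x` divides any `n ^ 2 + a i`. -/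
noncomputable def V {s : ℕ} (a : Fin s → ℤ) (x : ℕ) : ℝ :=
  ∏ p ∈ (Ioc 0 x).filter Nat.Prime, (1 - ((roots a p).card : ℝ) / p)

/-- The `n` in `[1, x]` for which all `|n ^ 2 + a i|` are primes. -/
def P {s : ℕ} (a : Fin s → ℤ) (x : ℕ) : Finset ℕ :=
  (Icc 1 x).filter (fun n => ∀ i, ((n : ℤ) ^ 2 + a i).natAbs.Prime)

open Classical in
/-- The integers `A < n ≤ A + X` for which `|n ^ 2 + b|` has at most three prime factors, counted with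
multiplicity, all of them at least `X ^ (1/4)`. -/
noncomputable def P3 (b : ℤ) (A X : ℕ) : Finset ℕ :=
  (Ioc A (A + X)).filter (fun n => (((n : ℤ) ^ 2 + b).natAbs).primeFactorsList.length ≤ 3 ∧
    ∀ p : ℕ, p.Prime → p ∣ ((n : ℤ) ^ 2 + b).natAbs → (X : ℝ) ^ (1 / 4 : ℝ) ≤ p)

/-- No prime `≤ x ^ (1/u)` divides any `n ^ 2 + a i`. -/
def Rough {s : ℕ} (u : ℕ) (a : Fin s → ℤ) (x n : ℕ) : Prop :=
  ∀ p : ℕ, p.Prime → (p : ℝ) ≤ (x : ℝ) ^ (1 / (u : ℝ)) → ∀ i, ¬ (p : ℤ) ∣ (n : ℤ) ^ 2 + a i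

open Classical in
/-- The number of the progressions `b, b + d, …, b + (k - 1) d` in `S` with `1 ≤ d ≤ D`. -/
noncomputable def AP (k D : ℕ) (S : Finset ℕ) : ℕ :=
  ((S ×ˢ Icc 1 D).filter (fun q => ∀ j < k, q.1 + j * q.2 ∈ S)).card

open Classical in
/-- The elements of `S` which lie in no progression of `k` elements of `S` with a difference in `[1, D]`. -/
noncomputable def outside (k : ℕ) (D : ℝ) (S : Finset ℕ) : Finset ℕ :=
  S.filter (fun n => ¬ ∃ b d : ℕ, 1 ≤ d ∧ (d : ℝ) ≤ D ∧ (∀ j < k, b + j * d ∈ S) ∧ ∃ j < k, n = b + j * d)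

lemma AP_eq (k D : ℕ) (S : Finset ℕ) : AP k D S = (Pool.Agent.Y843.AC.APs k D S).card := rfl

lemma V_eq {s : ℕ} (a : Fin s → ℤ) (x : ℕ) : V a x = Pool.Agent.Y843.HS.VV (roots a) 0 x := rfl

theorem avoid {s : ℕ} (a : Fin s → ℤ) {n p : ℕ} (hp : p.Prime) :
    n % p ∈ roots a p ↔ ∃ i, (p : ℤ) ∣ (n : ℤ) ^ 2 + a i := by
  classical
  have h := fun i => Pool.Agent.Y843.QD.mem_Zq (α := 1) (β := 0) (γ := a i) hp.pos n
  simp only [Pool.Agent.Y843.QD.Zq, mem_filter, mem_range] at h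
  unfold roots
  rw [mem_filter, mem_range]
  constructor
  · rintro ⟨h1, i, h2⟩
    refine ⟨i, ?_⟩
    have h3 := (h i).1 ⟨h1, by rw [one_mul, zero_mul, add_zero]; exact h2⟩
    rwa [one_mul, zero_mul, add_zero] at h3
  · rintro ⟨i, h2⟩
    have h3 := (h i).2 (by rw [one_mul, zero_mul, add_zero]; exact h2)
    rw [one_mul, zero_mul, add_zero] at h3
    exact ⟨h3.1, i, h3.2⟩

theorem roots_ok {s : ℕ} (a : Fin s → ℤ) (h : Possible a) (p : ℕ) (hp : p.Prime) :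
    (roots a p).card ≤ 2 * s ∧ (roots a p).card < p ∧ ∀ c ∈ roots a p, c < p := by
  classical
  refine ⟨?_, ?_, ?_⟩
  · have h1 : roots a p ⊆ univ.biUnion (fun i => Pool.Agent.Y843.QD.Zq 1 0 (a i) p) := by
      intro c hc
      unfold roots at hc
      rw [mem_filter] at hc
      obtain ⟨h1, i, h2⟩ := hc
      rw [mem_biUnion]
      refine ⟨i, mem_univ _, ?_⟩
      unfold Pool.Agent.Y843.QD.Zq
      rw [mem_filter]
      refine ⟨h1, ?_⟩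
      rw [one_mul, zero_mul, add_zero]
      exact h2
    refine (card_le_card h1).trans (card_biUnion_le.trans ?_)
    calc ∑ i : Fin s, (Pool.Agent.Y843.QD.Zq 1 0 (a i) p).card ≤ ∑ _i : Fin s, 2 := by
          apply sum_le_sum
          intro i _
          apply (Pool.Agent.Y843.QD.card_Zq_le 1 0 (a i) _ p hp).1
          intro q hq
          obtain ⟨n, hn⟩ := h q hq
          refine ⟨n, ?_⟩
          rw [one_mul, zero_mul, add_zero]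
          exact hn i
      _ = 2 * s := by rw [sum_const, card_univ, Fintype.card_fin, smul_eq_mul, mul_comm]
  · obtain ⟨n, hn⟩ := h p hp
    have h1 : n % p ∉ roots a p := by
      rw [avoid a hp]
      rintro ⟨i, hi⟩
      exact hn i hi
    have h2 : roots a p ⊂ range p := by
      rw [Finset.ssubset_iff_subset_ne]
      refine ⟨filter_subset _ _, ?_⟩
      intro h
      apply h1
      rw [h, mem_range]
      exact Nat.mod_lt _ hp.pos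
    have := card_lt_card h2
    rwa [card_range] at this
  · intro c hc
    unfold roots at hc
    rw [mem_filter, mem_range] at hc
    exact hc.1

/-- one polynomial is always possible -/
theorem possible_one (b : ℤ) : Possible (fun _ : Fin 1 => b) := by
  intro p hp
  by_contra hcon
  push Not at hcon
  have h0 := hcon 0
  have h1 := hcon 1
  obtain ⟨_, h0⟩ := h0
  obtain ⟨_, h1⟩ := h1
  have h2 := dvd_sub h1 h0
  have e : ((1 : ℕ) : ℤ) ^ 2 + b - (((0 : ℕ) : ℤ) ^ 2 + b) = 1 := by push_cast; ring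
  rw [e] at h2
  have h3 : p ∣ 1 := by exact_mod_cast h2
  exact hp.one_lt.ne' (Nat.dvd_one.1 h3)

theorem cl {s : ℕ} (a : Fin s → ℤ) (h : Possible a) (x : ℕ) :
    Pool.Agent.Y843.AC.Gn.Cl (2 * s) x (roots a) := fun p hp _ => roots_ok a h p hp

/-- the exceptional elements -/
theorem most {s : ℕ} (u : ℕ) (hu : 1 ≤ u) (a : Fin s → ℤ) (x : ℕ) (hx : 1 ≤ x) (S : Finset ℕ)
    (hS : ∀ n ∈ S, (∀ i, ((n : ℤ) ^ 2 + a i).natAbs.Prime) ∨ Rough u a x n) :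
    Pool.Agent.Y843.AC.Gn.Most (3 * s) (max u 2) 1 x (roots a) S := by
  classical
  have hx1 : (1 : ℝ) ≤ x := by exact_mod_cast hx
  obtain ⟨w, hw⟩ : ∃ w : ℝ, w = (x : ℝ) ^ (1 / ((max u 2 : ℕ) : ℝ)) := ⟨_, rfl⟩
  have hw0 : 0 ≤ w := by rw [hw]; positivity
  have hw2 : w ≤ (x : ℝ) ^ ((1 : ℝ) / 2) := by
    rw [hw]
    apply Real.rpow_le_rpow_of_exponent_le hx1
    apply one_div_le_one_div_of_le (by norm_num)
    exact_mod_cast le_max_right _ _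
  have hwu : w ≤ (x : ℝ) ^ (1 / (u : ℝ)) := by
    rw [hw]
    apply Real.rpow_le_rpow_of_exponent_le hx1
    apply one_div_le_one_div_of_le (by exact_mod_cast hu)
    exact_mod_cast le_max_left _ _
  have h12 : (1 : ℝ) ≤ (x : ℝ) ^ ((1 : ℝ) / 2) := Real.one_le_rpow hx1 (by norm_num)
  unfold Pool.Agent.Y843.AC.Gn.Most
  have h1 : S.filter (fun n => ¬ Pool.Agent.Y843.AC.Gn.Ro (max u 2) x (roots a) n) ⊆
      univ.biUnion (fun i : Fin s => S.filter (fun n : ℕ => ((n : ℤ) ^ 2 + a i).natAbs ≤ ⌊w⌋₊)) := by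
    intro n hn
    rw [mem_filter] at hn
    obtain ⟨hnS, hn2⟩ := hn
    rw [mem_biUnion]
    by_contra hcon
    push Not at hcon
    apply hn2
    intro p hp hpx hmem
    rw [← hw] at hpx
    obtain ⟨i, hi⟩ := (avoid a hp).1 hmem
    rcases hS n hnS with h3 | h3
    · have h4 := (Nat.prime_dvd_prime_iff_eq hp (h3 i)).1 (Int.natCast_dvd.1 hi)
      apply hcon i (mem_univ _)
      rw [mem_filter]
      refine ⟨hnS, ?_⟩
      rw [← h4]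
      exact Nat.le_floor hpx
    · exact h3 p hp (hpx.trans hwu) i hi
  have h2 : (S.filter (fun n => ¬ Pool.Agent.Y843.AC.Gn.Ro (max u 2) x (roots a) n)).card ≤
      s * (2 * ⌊w⌋₊ + 1) := by
    refine (card_le_card h1).trans (card_biUnion_le.trans ?_)
    calc ∑ i : Fin s, (S.filter (fun n : ℕ => ((n : ℤ) ^ 2 + a i).natAbs ≤ ⌊w⌋₊)).card
        ≤ ∑ _i : Fin s, (2 * ⌊w⌋₊ + 1) := by
          apply sum_le_sum
          intro i _
          have h3 : (S.filter (fun n : ℕ => ((n : ℤ) ^ 2 + a i).natAbs ≤ ⌊w⌋₊)).card ≤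
              (Icc (-(⌊w⌋₊ : ℤ)) ⌊w⌋₊).card := by
            apply card_le_card_of_injOn (fun n : ℕ => (n : ℤ) ^ 2 + a i)
            · intro n hn
              rw [mem_coe, mem_filter] at hn
              obtain ⟨_, hn⟩ := hn
              show (n : ℤ) ^ 2 + a i ∈ Icc (-(⌊w⌋₊ : ℤ)) ⌊w⌋₊
              rw [mem_Icc]
              omega
            · intro n _ m _ h
              simp only at h
              have h5 : (n : ℤ) ^ 2 = (m : ℤ) ^ 2 := by linarith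
              have h6 : n ^ 2 = m ^ 2 := by exact_mod_cast h5
              exact Nat.pow_left_injective (by norm_num) h6
          refine h3.trans ?_
          rw [Int.card_Icc]
          omega
      _ = s * (2 * ⌊w⌋₊ + 1) := by rw [sum_const, card_univ, Fintype.card_fin, smul_eq_mul]
  have h3 : ((S.filter (fun n => ¬ Pool.Agent.Y843.AC.Gn.Ro (max u 2) x (roots a) n)).card : ℝ) ≤
      s * (2 * ⌊w⌋₊ + 1) := by exact_mod_cast h2
  have h4 := Nat.floor_le hw0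
  refine h3.trans ?_
  have h5 : (s : ℝ) * (2 * ⌊w⌋₊ + 1) ≤ s * (3 * (x : ℝ) ^ ((1 : ℝ) / 2)) :=
    mul_le_mul_of_nonneg_left (by linarith) (Nat.cast_nonneg _)
  linarith

theorem up (s k : ℕ) (hk : 1 ≤ k) (u : ℕ) (hu : 1 ≤ u) :
    ∃ C : ℝ, 0 < C ∧ ∃ B x₀ : ℕ, ∀ x : ℕ, x₀ ≤ x → ∀ (a : Fin s → ℤ), Possible a → ∀ Y D : ℕ,
      Real.log x ^ B ≤ D → ∀ S : Finset ℕ, S ⊆ Ioc Y (Y + x) →
      (∀ n ∈ S, (∀ i, ((n : ℤ) ^ 2 + a i).natAbs.Prime) ∨ Rough u a x n) →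
      (AP k D S : ℝ) ≤ C * (x * D * V a x ^ k) := by
  obtain ⟨C, hC, B, n₀, h⟩ := Pool.Agent.Y843.AC.Gn.up (2 * s) k (max u 2) (3 * s) hk (by omega) one_pos
  refine ⟨C, hC, B, max n₀ 1, ?_⟩
  intro x hx a ha Y D hD S hS hR
  exact h x ((le_max_left _ _).trans hx) (roots a) (cl a ha x) Y x D (by rw [Real.rpow_one]) le_rfl hD S hS
    (most u hu a x ((le_max_right _ _).trans hx) S hR)

theorem dn (s k : ℕ) (hk : 1 ≤ k) (u : ℕ) (hu : 1 ≤ u) (δ : ℝ) (hδ : 0 < δ) :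
    ∃ c : ℝ, 0 < c ∧ ∃ B x₀ : ℕ, ∀ x : ℕ, x₀ ≤ x → ∀ (a : Fin s → ℤ), Possible a → ∀ Y D : ℕ,
      Real.log x ^ B ≤ D → D ≤ x → ∀ S : Finset ℕ, S ⊆ Ioc Y (Y + x) →
      (∀ n ∈ S, (∀ i, ((n : ℤ) ^ 2 + a i).natAbs.Prime) ∨ Rough u a x n) →
      (δ * (x * V a x) ≤ S.card → c * (x * D * V a x ^ k) ≤ AP k D S) ∧
      (δ * (x * D * V a x ^ k) ≤ AP k D S → c * (x * V a x) ≤ S.card) := by
  obtain ⟨c, hc, B, n₀, h⟩ := Pool.Agent.Y843.AC.Gn.dn (2 * s) k (max u 2) (3 * s) hk (by omega) one_pos hδ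
  refine ⟨c, hc, B, max n₀ 1, ?_⟩
  intro x hx a ha Y D hD hDx S hS hR
  exact h x ((le_max_left _ _).trans hx) (roots a) (cl a ha x) Y x D (by rw [Real.rpow_one]) le_rfl hD hDx S hS
    (most u hu a x ((le_max_right _ _).trans hx) S hR)

theorem big (B : ℕ) : ∃ n₀ : ℕ, ∀ n : ℕ, n₀ ≤ n → Real.log n ^ B ≤ n := by
  obtain ⟨n₀, h⟩ := Pool.Agent.Y843.HS.log_pow_le B 1
  exact ⟨n₀, fun n hn => by simpa using h n hn⟩

theorem V_pos (s : ℕ) : ∃ x₀ : ℕ, ∀ x : ℕ, x₀ ≤ x → ∀ (a : Fin s → ℤ), Possible a → 0 < V a x := by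
  obtain ⟨c, hc, x₀, h⟩ := Pool.Agent.Y843.AC.Gn.V_low (2 * s)
  refine ⟨max x₀ 3, fun x hx a ha => ?_⟩
  have h1 := h x ((le_max_left _ _).trans hx) (roots a) (cl a ha x)
  have hlx : 0 < Real.log x := Real.log_pos (by
    have : 3 ≤ x := (le_max_right _ _).trans hx
    exact_mod_cast (show 1 < x by omega))
  exact lt_of_lt_of_le (by positivity) h1

/-- all but few elements are in progressions -/
theorem her (s k : ℕ) (hk : 1 ≤ k) (u : ℕ) (δ : ℝ) (hu : 1 ≤ u) (hδ : 0 < δ) :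
    ∃ B x₀ : ℕ, ∀ x : ℕ, x₀ ≤ x → ∀ (a : Fin s → ℤ), Possible a → ∀ Y : ℕ, ∀ S : Finset ℕ,
      S ⊆ Ioc Y (Y + x) → (∀ n ∈ S, (∀ i, ((n : ℤ) ^ 2 + a i).natAbs.Prime) ∨ Rough u a x n) →
      ((outside k (Real.log x ^ B) S).card : ℝ) ≤ δ * (x * V a x) := by
  classical
  obtain ⟨c, hc, B, n₁, h1⟩ := dn s k hk u hu δ hδ
  obtain ⟨n₂, h2⟩ := big (B + 1)
  obtain ⟨n₄, h4⟩ := V_pos s
  have e3 := (tendsto_natCast_atTop_atTop (R := ℝ)).eventually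
    (Real.tendsto_log_atTop.eventually (Filter.eventually_ge_atTop (2 : ℝ)))
  rw [Filter.eventually_atTop] at e3
  obtain ⟨n₃, h3⟩ := e3
  refine ⟨B + 1, max (max n₁ n₂) (max (max n₃ n₄) 3), ?_⟩
  intro x hx a ha Y S hS hR
  have g1 : Real.log x ^ (B + 1) ≤ (x : ℝ) := h2 x (by omega)
  have g2 : 2 ≤ Real.log x := h3 x (by omega)
  have hV := h4 x (by omega) a ha
  have hlB : 1 ≤ Real.log x ^ B := one_le_pow₀ (by linarith)
  obtain ⟨D, hD⟩ : ∃ D : ℕ, D = ⌈Real.log x ^ B⌉₊ := ⟨_, rfl⟩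
  have hD1 : Real.log x ^ B ≤ D := by rw [hD]; exact Nat.le_ceil _
  have hD2 : (D : ℝ) ≤ Real.log x ^ (B + 1) := by
    have h3 : (D : ℝ) < Real.log x ^ B + 1 := by rw [hD]; exact Nat.ceil_lt_add_one (by linarith)
    rw [pow_succ]
    nlinarith
  have hD0 : (0 : ℝ) < D := by linarith
  have hDx : D ≤ x := by exact_mod_cast hD2.trans g1
  obtain ⟨S', hS'⟩ : ∃ S', S' = outside k (Real.log x ^ (B + 1)) S := ⟨_, rfl⟩
  have hsub : S' ⊆ S := by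
    rw [hS']
    unfold outside
    exact filter_subset _ _
  have hAP : AP k D S' = 0 := by
    unfold AP
    rw [card_eq_zero, filter_eq_empty_iff]
    intro q hq hcon
    rw [mem_product, mem_Icc] at hq
    have h4 := hq.1
    rw [hS'] at h4
    unfold outside at h4
    rw [mem_filter] at h4
    apply h4.2
    refine ⟨q.1, q.2, hq.2.1, ?_, fun j hj => hsub (hcon j hj), 0, by omega, by omega⟩
    refine le_trans ?_ hD2
    exact_mod_cast hq.2.2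
  rw [← hS']
  by_contra hcon
  rw [not_le] at hcon
  have h5 := (h1 x (by omega) a ha Y D hD1 hDx S' (hsub.trans hS) (fun n hn => hR n (hsub hn))).1 hcon.le
  rw [hAP] at h5
  have h6 : (0 : ℝ) < x := by exact_mod_cast (show 0 < x by omega)
  have h8 : 0 < c * ((x : ℝ) * D * V a x ^ k) := by positivity
  rw [Nat.cast_zero] at h5
  linarith

/-- the almost primes -/
theorem almost (s : ℕ) : ∃ t : ℕ, 1 ≤ t ∧ ∀ k : ℕ, 1 ≤ k → ∃ c C : ℝ, 0 < c ∧ 0 < C ∧ ∃ B x₀ : ℕ,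
    ∀ x : ℕ, x₀ ≤ x → ∀ (a : Fin s → ℤ), Possible a → ∀ Y D : ℕ, Real.log x ^ B ≤ D → D ≤ x →
    ∀ S : Finset ℕ, (∀ n, n ∈ S ↔ n ∈ Ioc Y (Y + x) ∧ Rough t a x n) →
      c * (x * D * V a x ^ k) ≤ AP k D S ∧ (AP k D S : ℝ) ≤ C * (x * D * V a x ^ k) := by
  classical
  obtain ⟨t, ht, c₀, hc₀, X₀, h0⟩ := Pool.Agent.Y843.QD.low_count (2 * s)
  have ht0 : (0 : ℝ) < t := by exact_mod_cast ht
  refine ⟨t, ht, fun k hk => ?_⟩
  obtain ⟨C, hC, B, x₁, h1⟩ := up s k hk t ht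
  obtain ⟨c, hc, B', x₂, h2⟩ := dn s k hk t ht c₀ hc₀
  refine ⟨c, C, hc, hC, max B B', max (max X₀ x₁) (max x₂ 3), ?_⟩
  intro x hx a ha Y D hD hDx S hS
  have hl := Pool.Agent.Y843.AC.log_one (show 3 ≤ x by omega)
  have hx1 : (1 : ℝ) ≤ x := by exact_mod_cast (show 1 ≤ x by omega)
  have hsub : S ⊆ Ioc Y (Y + x) := fun n hn => ((hS n).1 hn).1
  have hR : ∀ n ∈ S, (∀ i, ((n : ℤ) ^ 2 + a i).natAbs.Prime) ∨ Rough t a x n := fun n hn =>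
    Or.inr ((hS n).1 hn).2
  refine ⟨?_, h1 x (by omega) a ha Y D ((pow_le_pow_right₀ hl (le_max_left _ _)).trans hD) S hsub hR⟩
  refine (h2 x (by omega) a ha Y D ((pow_le_pow_right₀ hl (le_max_right _ _)).trans hD) hDx S hsub hR).1 ?_
  have h3 := h0 x (by omega) Y (roots a) (fun p hp => roots_ok a ha p (Pool.Agent.Y843.HS.Pr_prime hp))
  have h4 : Pool.Agent.Y843.QD.SZ (roots a) Y x ⌊(x : ℝ) ^ (1 / (t : ℝ))⌋₊ ⊆ S := by
    intro n hn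
    unfold Pool.Agent.Y843.QD.SZ at hn
    rw [mem_filter] at hn
    rw [hS]
    refine ⟨hn.1, ?_⟩
    intro p hp hpx i hi
    refine hn.2 p ?_ ((avoid a hp).2 ⟨i, hi⟩)
    rw [Pool.Agent.Y843.HS.Pr_mem]
    exact ⟨⟨hp.pos, Nat.le_floor hpx⟩, hp⟩
  have h5 : V a x ≤ Pool.Agent.Y843.HS.VV (roots a) 0 ⌊(x : ℝ) ^ (1 / (t : ℝ))⌋₊ := by
    rw [V_eq]
    apply Pool.Agent.Y843.HG.VV_anti
    · have h6 : (x : ℝ) ^ (1 / (t : ℝ)) ≤ x := by
        calc (x : ℝ) ^ (1 / (t : ℝ)) ≤ (x : ℝ) ^ (1 : ℝ) := by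
              apply Real.rpow_le_rpow_of_exponent_le hx1
              rw [div_le_one ht0]
              exact_mod_cast ht
          _ = x := Real.rpow_one _
      have := Nat.floor_le_floor h6
      rwa [Nat.floor_natCast] at this
    · intro p hp
      exact (roots_ok a ha p (Pool.Agent.Y843.HS.Pr_prime hp)).2.2
  calc c₀ * (x * V a x) ≤ c₀ * (x * Pool.Agent.Y843.HS.VV (roots a) 0 ⌊(x : ℝ) ^ (1 / (t : ℝ))⌋₊) := by
        apply mul_le_mul_of_nonneg_left _ hc₀.le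
        exact mul_le_mul_of_nonneg_left h5 (Nat.cast_nonneg _)
    _ = c₀ * x * Pool.Agent.Y843.HS.VV (roots a) 0 ⌊(x : ℝ) ^ (1 / (t : ℝ))⌋₊ := by ring
    _ ≤ _ := h3
    _ ≤ S.card := by exact_mod_cast card_le_card h4

lemma P_sub {s : ℕ} (a : Fin s → ℤ) (x : ℕ) : P a x ⊆ Ioc 0 (0 + x) := by
  intro m hm
  have := mem_Icc.1 (mem_filter.1 hm).1
  rw [mem_Ioc]
  omega

lemma P_R {s : ℕ} (a : Fin s → ℤ) (x u : ℕ) :
    ∀ n ∈ P a x, (∀ i, ((n : ℤ) ^ 2 + a i).natAbs.Prime) ∨ Rough u a x n :=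
  fun _ hn => Or.inl (mem_filter.1 hn).2

/-- families -/
theorem order (s k : ℕ) (hk : 1 ≤ k) (M : Set (ℕ × (Fin s → ℤ))) (hM : ∀ q ∈ M, Possible q.2) :
    ((∃ c : ℝ, 0 < c ∧ ∃ x₀ : ℕ, ∀ q ∈ M, x₀ ≤ q.1 → c * (q.1 * V q.2 q.1) ≤ (P q.2 q.1).card) ↔
      ∃ c C : ℝ, 0 < c ∧ 0 < C ∧ ∃ B x₀ : ℕ, ∀ q ∈ M, x₀ ≤ q.1 → ∀ D : ℕ, Real.log q.1 ^ B ≤ D →
        D ≤ q.1 → c * (q.1 * D * V q.2 q.1 ^ k) ≤ AP k D (P q.2 q.1) ∧
          (AP k D (P q.2 q.1) : ℝ) ≤ C * (q.1 * D * V q.2 q.1 ^ k)) ∧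
    ((∃ c : ℝ, 0 < c ∧ ∃ x₀ : ℕ, ∀ q ∈ M, x₀ ≤ q.1 → c * (q.1 * V q.2 q.1) ≤ (P q.2 q.1).card) ↔
      ∃ c : ℝ, 0 < c ∧ ∀ B : ℕ, ∃ x₀ : ℕ, ∀ q ∈ M, x₀ ≤ q.1 → ∃ D : ℕ, Real.log q.1 ^ B ≤ D ∧
        D ≤ q.1 ∧ c * (q.1 * D * V q.2 q.1 ^ k) ≤ AP k D (P q.2 q.1)) := by
  classical
  have a1 : (∃ c : ℝ, 0 < c ∧ ∃ x₀ : ℕ, ∀ q ∈ M, x₀ ≤ q.1 →
        c * (q.1 * V q.2 q.1) ≤ (P q.2 q.1).card) →
      ∃ c C : ℝ, 0 < c ∧ 0 < C ∧ ∃ B x₀ : ℕ, ∀ q ∈ M, x₀ ≤ q.1 → ∀ D : ℕ, Real.log q.1 ^ B ≤ D →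
        D ≤ q.1 → c * (q.1 * D * V q.2 q.1 ^ k) ≤ AP k D (P q.2 q.1) ∧
          (AP k D (P q.2 q.1) : ℝ) ≤ C * (q.1 * D * V q.2 q.1 ^ k) := by
    rintro ⟨δ, hδ, n₀, h⟩
    obtain ⟨c, hc, B, n₁, h1⟩ := dn s k hk 1 le_rfl δ hδ
    obtain ⟨C, hC, B', n₂, h2⟩ := up s k hk 1 le_rfl
    refine ⟨c, C, hc, hC, max B B', max (max n₀ 3) (max n₁ n₂), ?_⟩
    intro q hq hx D hD hDx
    have hl := Pool.Agent.Y843.AC.log_one (show 3 ≤ q.1 by omega)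
    exact ⟨(h1 q.1 (by omega) q.2 (hM q hq) 0 D ((pow_le_pow_right₀ hl (le_max_left _ _)).trans hD) hDx _
      (P_sub _ _) (P_R _ _ _)).1 (h q hq (by omega)),
      h2 q.1 (by omega) q.2 (hM q hq) 0 D ((pow_le_pow_right₀ hl (le_max_right _ _)).trans hD) _
      (P_sub _ _) (P_R _ _ _)⟩
  have a2 : (∃ c C : ℝ, 0 < c ∧ 0 < C ∧ ∃ B x₀ : ℕ, ∀ q ∈ M, x₀ ≤ q.1 → ∀ D : ℕ,
        Real.log q.1 ^ B ≤ D → D ≤ q.1 → c * (q.1 * D * V q.2 q.1 ^ k) ≤ AP k D (P q.2 q.1) ∧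
          (AP k D (P q.2 q.1) : ℝ) ≤ C * (q.1 * D * V q.2 q.1 ^ k)) →
      ∃ c : ℝ, 0 < c ∧ ∀ B : ℕ, ∃ x₀ : ℕ, ∀ q ∈ M, x₀ ≤ q.1 → ∃ D : ℕ, Real.log q.1 ^ B ≤ D ∧
        D ≤ q.1 ∧ c * (q.1 * D * V q.2 q.1 ^ k) ≤ AP k D (P q.2 q.1) := by
    rintro ⟨c, C, hc, _, B₀, n₀, h⟩
    refine ⟨c, hc, fun B => ?_⟩
    obtain ⟨n₁, h1⟩ := big B
    obtain ⟨n₂, h2⟩ := big B₀
    refine ⟨max n₀ (max n₁ n₂), ?_⟩
    intro q hq hx
    exact ⟨q.1, h1 q.1 (by omega), le_rfl, (h q hq (by omega) q.1 (h2 q.1 (by omega)) le_rfl).1⟩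
  have a3 : (∃ c : ℝ, 0 < c ∧ ∀ B : ℕ, ∃ x₀ : ℕ, ∀ q ∈ M, x₀ ≤ q.1 → ∃ D : ℕ, Real.log q.1 ^ B ≤ D ∧
        D ≤ q.1 ∧ c * (q.1 * D * V q.2 q.1 ^ k) ≤ AP k D (P q.2 q.1)) →
      ∃ c : ℝ, 0 < c ∧ ∃ x₀ : ℕ, ∀ q ∈ M, x₀ ≤ q.1 → c * (q.1 * V q.2 q.1) ≤ (P q.2 q.1).card := by
    rintro ⟨δ, hδ, h⟩
    obtain ⟨c, hc, B, n₁, h1⟩ := dn s k hk 1 le_rfl δ hδ
    obtain ⟨n₀, h0⟩ := h B
    refine ⟨c, hc, max n₀ n₁, ?_⟩
    intro q hq hx
    obtain ⟨D, hD, hDx, hE⟩ := h0 q hq ((le_max_left _ _).trans hx)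
    exact (h1 q.1 ((le_max_right _ _).trans hx) q.2 (hM q hq) 0 D hD hDx _ (P_sub _ _) (P_R _ _ _)).2 hE
  exact ⟨⟨a1, fun h => a3 (a2 h)⟩, ⟨fun h => a2 (a1 h), a3⟩⟩

/-- `- b` is not a square -/
theorem nsq {b : ℤ} (hb : ¬ IsSquare (-b)) : ¬ IsSquare ((0 : ℤ) ^ 2 - 4 * 1 * b) := by
  rintro ⟨r, hr⟩
  apply hb
  have h1 : r * r = 4 * (-b) := by linarith
  have h2 : Even r := by
    have : Even (r * r) := by rw [h1]; exact ⟨2 * (-b), by ring⟩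
    rwa [Int.even_mul, or_self] at this
  obtain ⟨m, hm⟩ := h2
  refine ⟨m, ?_⟩
  rw [hm] at h1
  linarith

theorem adm (b : ℤ) (p : ℕ) (hp : p.Prime) : ∃ n : ℕ, ¬ (p : ℤ) ∣ 1 * (n : ℤ) ^ 2 + 0 * n + b := by
  obtain ⟨n, hn⟩ := possible_one b p hp
  refine ⟨n, ?_⟩
  rw [one_mul, zero_mul, add_zero]
  exact hn 0

theorem roots_one (b : ℤ) (p : ℕ) : roots (fun _ : Fin 1 => b) p = Pool.Agent.Y843.QD.Zq 1 0 b p := by
  classical
  unfold roots Pool.Agent.Y843.QD.Zq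
  apply filter_congr
  intro c _
  rw [one_mul, zero_mul, add_zero]
  constructor
  · rintro ⟨_, h⟩
    exact h
  · intro h
    exact ⟨0, h⟩

/-- for a fixed polynomial `V` is of the order `1 / log x` -/
theorem V_one (b : ℤ) (hb : ¬ IsSquare (-b)) : ∃ c C : ℝ, 0 < c ∧ 0 < C ∧ ∀ x : ℕ, 2 ≤ x →
    c / Real.log x ≤ V (fun _ : Fin 1 => b) x ∧ V (fun _ : Fin 1 => b) x ≤ C / Real.log x := by
  have h := (Pool.Agent.Y843.AC.FC_lin (Pool.Agent.Y843.QD.lin_quad 1 0 b one_ne_zero (nsq hb) (adm b))).ord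
  obtain ⟨c, C, hc, hC, h⟩ := h
  refine ⟨c, C, hc, hC, fun x hx => ?_⟩
  have h1 := h x hx
  rw [pow_one] at h1
  have h2 : V (fun _ : Fin 1 => b) x = Pool.Agent.Y843.HS.VV (Pool.Agent.Y843.QD.Zq 1 0 b) 0 x := by
    rw [V_eq]
    unfold Pool.Agent.Y843.HS.VV
    apply prod_congr rfl
    intro p _
    rw [roots_one]
  rw [h2]
  exact h1

/-- at most three prime factors -/
theorem three (b : ℤ) (hb : ¬ IsSquare (-b)) (k : ℕ) (hk : 1 ≤ k) : ∃ c C : ℝ, 0 < c ∧ 0 < C ∧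
    ∃ B X₀ : ℕ, ∀ X : ℕ, X₀ ≤ X → ∀ A D : ℕ, (A : ℝ) ≤ (X : ℝ) ^ (301 / 300 : ℝ) →
      Real.log X ^ B ≤ D → D ≤ X →
      c * (X * D / Real.log X ^ k) ≤ AP k D (P3 b A X) ∧
        (AP k D (P3 b A X) : ℝ) ≤ C * (X * D / Real.log X ^ k) := by
  classical
  have hqv : ∀ n : ℕ, Pool.Agent.Y843.QD.qv 1 0 b n = ((n : ℤ) ^ 2 + b).natAbs := by
    intro n
    unfold Pool.Agent.Y843.QD.qv
    rw [one_mul, zero_mul, add_zero]
  have hP3 : ∀ A X : ℕ, Pool.Agent.Y843.QD.P3 1 0 b A X = P3 b A X := by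
    intro A X
    unfold Pool.Agent.Y843.QD.P3 P3
    apply filter_congr
    intro n _
    rw [hqv]
  obtain ⟨c₀, hc₀, X₁, h1⟩ := Pool.Agent.Y843.QD.p3_quad 1 0 b one_ne_zero (nsq hb) (adm b)
  have hfc := Pool.Agent.Y843.AC.FC_lin (Pool.Agent.Y843.QD.lin_quad 1 0 b one_ne_zero (nsq hb) (adm b))
  obtain ⟨⟨C, hC, B, X₂, h2⟩, hdn⟩ := Pool.Agent.Y843.AC.fixed hfc k 5 hk (by norm_num) one_pos
  obtain ⟨c, hc, B', X₃, h3⟩ := hdn c₀ hc₀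
  refine ⟨c, C, hc, hC, max B B', max (max X₁ X₂) (max X₃ 3), ?_⟩
  intro X hX A D hA hD hDX
  have hX3 : 3 ≤ X := by omega
  have hXr : (1 : ℝ) < X := by exact_mod_cast (show 1 < X by omega)
  have hl := Pool.Agent.Y843.AC.log_one hX3
  have hsub : P3 b A X ⊆ Ioc A (A + X) := by
    unfold P3
    exact filter_subset _ _
  have hR : ∀ m ∈ P3 b A X, ∀ p : ℕ, p.Prime → (p : ℝ) ≤ (X : ℝ) ^ (1 / ((5 : ℕ) : ℝ)) →
      m % p ∉ Pool.Agent.Y843.QD.Zq 1 0 b p := by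
    intro m hm p hp hpX hcon
    rw [Pool.Agent.Y843.QD.mem_Zq hp.pos, ← Pool.Agent.Y843.QD.dvd_qv, hqv] at hcon
    unfold P3 at hm
    have h4 := (mem_filter.1 hm).2.2 p hp hcon
    have h5 : (X : ℝ) ^ (1 / ((5 : ℕ) : ℝ)) < (X : ℝ) ^ (1 / 4 : ℝ) := by
      apply Real.rpow_lt_rpow_of_exponent_lt hXr
      norm_num
    linarith
  have h4 := h1 X (by omega) A hA
  rw [hP3] at h4
  have hE : (X : ℝ) * D * (1 / Real.log X ^ 1) ^ k = X * D / Real.log X ^ k := by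
    rw [pow_one, div_pow, one_pow, mul_one_div]
  have h5 := (h3 X (by omega) A X D (by rw [Real.rpow_one]) le_rfl
    ((pow_le_pow_right₀ hl (le_max_right _ _)).trans hD) hDX _ hsub hR).1 (by
      rw [pow_one, mul_one_div, ← mul_div_assoc]
      exact h4)
  have h6 := h2 X (by omega) A X D (by rw [Real.rpow_one]) le_rfl
    ((pow_le_pow_right₀ hl (le_max_left _ _)).trans hD) _ hsub hR
  rw [hE] at h5 h6
  exact ⟨h5, h6⟩

open Polynomial in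
/-- the primes, for almost all `a` -/
theorem primes_low (s : ℕ) : ∃ c : ℝ, 0 < c ∧ ∀ b U : ℕ, ∃ x₀ : ℕ, ∀ x : ℕ, x₀ ≤ x → ∀ A : Fin s → ℕ,
    (∀ i, A i ≤ b * x ^ 2 ∧ x ^ 2 ≤ b * A i) →
    ∃ E : Finset (Fin s → ℕ), (E.card : ℝ) ≤ (∏ i, (A i : ℝ)) / Real.log x ^ U ∧
      ∀ a : Fin s → ℕ, (∀ i, 1 ≤ a i ∧ a i ≤ A i) → a ∉ E → Possible (fun i => (a i : ℤ)) →
        c * (x * V (fun i => (a i : ℤ)) x) ≤ (P (fun i => (a i : ℤ)) x).card := by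
  classical
  obtain ⟨c, hc, h⟩ := Pool.Agent.Y843.AQ.sh_low (fun _ : Fin s => (X : ℤ[X]) ^ 2)
    (fun _ => by rw [natDegree_X_pow]; norm_num) (fun _ => by rw [leadingCoeff_X_pow]; norm_num)
  refine ⟨c, hc, fun b U => ?_⟩
  obtain ⟨N, hN⟩ := h (max b 1) (le_max_right _ _) U
  refine ⟨max N 1, fun x hx A hA => ?_⟩
  have hx1 : 1 ≤ x := (le_max_right _ _).trans hx
  have h1 := hN x ((le_max_left _ _).trans hx) A (fun i => by
    rw [natDegree_X_pow]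
    exact ⟨(hA i).1.trans (Nat.mul_le_mul_right _ (le_max_left _ _)),
      (hA i).2.trans (Nat.mul_le_mul_right _ (le_max_left _ _))⟩)
  refine ⟨_, h1, fun a ha hE hp => ?_⟩
  have hvv : ∀ i n, Pool.Agent.Y843.AQ.vv (fun _ : Fin s => (X : ℤ[X]) ^ 2) a i n = (n : ℤ) ^ 2 + (a i : ℤ) := by
    intro i n
    unfold Pool.Agent.Y843.AQ.vv
    simp
  have hmem : a ∈ Pool.Agent.Y843.AQ.bx A := by
    unfold Pool.Agent.Y843.AQ.bx
    rw [Fintype.mem_piFinset]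
    intro i
    rw [mem_Icc]
    exact ha i
  have hadm : ∀ p : ℕ, p.Prime → ∃ n : ℕ,
      ¬ (p : ℤ) ∣ ∏ i, Pool.Agent.Y843.AQ.vv (fun _ : Fin s => (X : ℤ[X]) ^ 2) a i n := by
    intro p hpp
    obtain ⟨n, hn⟩ := hp p hpp
    refine ⟨n, ?_⟩
    rw [Prime.dvd_finsetProd_iff (Nat.prime_iff_prime_int.1 hpp)]
    rintro ⟨i, _, hi⟩
    rw [hvv] at hi
    exact hn i hi
  rw [mem_filter] at hE
  have h2 : c * x * ∏ p ∈ Pool.Agent.Y843.AQ.Pz 0 ⌊(x : ℝ) ^ (1 / 4 : ℝ)⌋₊,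
      (1 - (Pool.Agent.H373R2.T7.nuB (Pool.Agent.H373R2.T7.sysQ (fun _ : Fin s => (X : ℤ[X]) ^ 2)
        (Pool.Agent.Y843.AQ.s1 s) a) p : ℝ) / p) ≤
      (Pool.Agent.Y843.AQ.PP (fun _ : Fin s => (X : ℤ[X]) ^ 2) a x).card := by
    by_contra hcon
    exact hE ⟨hmem, hadm, hcon⟩
  have h3 : Pool.Agent.Y843.AQ.PP (fun _ : Fin s => (X : ℤ[X]) ^ 2) a x ⊆ P (fun i => (a i : ℤ)) x := by
    intro n hn
    unfold Pool.Agent.Y843.AQ.PP at hn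
    unfold P
    rw [mem_filter] at hn ⊢
    refine ⟨hn.1, fun i => ?_⟩
    have h4 := hn.2 i
    rw [hvv] at h4
    have h5 : ((n : ℤ) ^ 2 + (a i : ℤ)).toNat = ((n : ℤ) ^ 2 + (a i : ℤ)).natAbs := by
      have : 0 ≤ (n : ℤ) ^ 2 + (a i : ℤ) := by positivity
      omega
    rwa [h5] at h4
  have h4 : ∀ p, Pool.Agent.H373R2.T7.nuB (Pool.Agent.H373R2.T7.sysQ (fun _ : Fin s => (X : ℤ[X]) ^ 2)
      (Pool.Agent.Y843.AQ.s1 s) a) p = (roots (fun i => (a i : ℤ)) p).card := by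
    intro p
    unfold Pool.Agent.H373R2.T7.nuB roots
    congr 1
    apply filter_congr
    intro n _
    unfold Pool.Agent.H373R2.T7.sysQ Pool.Agent.H373R2.T7.vl Pool.Agent.Y843.AQ.s1
    simp [add_comm]
  have h5 : V (fun i => (a i : ℤ)) x ≤ ∏ p ∈ Pool.Agent.Y843.AQ.Pz 0 ⌊(x : ℝ) ^ (1 / 4 : ℝ)⌋₊,
      (1 - (Pool.Agent.H373R2.T7.nuB (Pool.Agent.H373R2.T7.sysQ (fun _ : Fin s => (X : ℤ[X]) ^ 2)
        (Pool.Agent.Y843.AQ.s1 s) a) p : ℝ) / p) := by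
    have e : ∏ p ∈ Pool.Agent.Y843.AQ.Pz 0 ⌊(x : ℝ) ^ (1 / 4 : ℝ)⌋₊,
      (1 - (Pool.Agent.H373R2.T7.nuB (Pool.Agent.H373R2.T7.sysQ (fun _ : Fin s => (X : ℤ[X]) ^ 2)
        (Pool.Agent.Y843.AQ.s1 s) a) p : ℝ) / p) =
        Pool.Agent.Y843.HS.VV (roots (fun i => (a i : ℤ))) 0 ⌊(x : ℝ) ^ (1 / 4 : ℝ)⌋₊ := by
      unfold Pool.Agent.Y843.HS.VV
      apply prod_congr rfl
      intro p _
      rw [h4]
    rw [e, V_eq]
    apply Pool.Agent.Y843.HG.VV_anti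
    · have h6 : (x : ℝ) ^ (1 / 4 : ℝ) ≤ x := by
        calc (x : ℝ) ^ (1 / 4 : ℝ) ≤ (x : ℝ) ^ (1 : ℝ) := by
              apply Real.rpow_le_rpow_of_exponent_le (by exact_mod_cast hx1)
              norm_num
          _ = x := Real.rpow_one _
      have := Nat.floor_le_floor h6
      rwa [Nat.floor_natCast] at this
    · intro p hpp
      exact (roots_ok _ hp p (Pool.Agent.Y843.HS.Pr_prime hpp)).2.2
  calc c * (x * V (fun i => (a i : ℤ)) x) = c * x * V (fun i => (a i : ℤ)) x := by ring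
    _ ≤ _ := mul_le_mul_of_nonneg_left h5 (by positivity)
    _ ≤ _ := h2
    _ ≤ _ := by exact_mod_cast card_le_card h3

/-- the progressions of primes, for almost all `a` -/
theorem primes_AP (s k : ℕ) (hk : 1 ≤ k) : ∃ c C : ℝ, 0 < c ∧ 0 < C ∧ ∃ B : ℕ, ∀ b U : ℕ, ∃ x₀ : ℕ,
    ∀ x : ℕ, x₀ ≤ x → ∀ A : Fin s → ℕ, (∀ i, A i ≤ b * x ^ 2 ∧ x ^ 2 ≤ b * A i) →
    ∃ E : Finset (Fin s → ℕ), (E.card : ℝ) ≤ (∏ i, (A i : ℝ)) / Real.log x ^ U ∧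
      ∀ a : Fin s → ℕ, (∀ i, 1 ≤ a i ∧ a i ≤ A i) → a ∉ E → Possible (fun i => (a i : ℤ)) →
        c * (x * V (fun i => (a i : ℤ)) x) ≤ (P (fun i => (a i : ℤ)) x).card ∧
        ∀ D : ℕ, Real.log x ^ B ≤ D → D ≤ x →
          c * (x * D * V (fun i => (a i : ℤ)) x ^ k) ≤ AP k D (P (fun i => (a i : ℤ)) x) ∧
            (AP k D (P (fun i => (a i : ℤ)) x) : ℝ) ≤ C * (x * D * V (fun i => (a i : ℤ)) x ^ k) := by
  classical
  obtain ⟨δ, hδ, h⟩ := primes_low s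
  obtain ⟨c, hc, B, n₁, h1⟩ := dn s k hk 1 le_rfl δ hδ
  obtain ⟨C, hC, B', n₂, h2⟩ := up s k hk 1 le_rfl
  refine ⟨min δ c, C, lt_min hδ hc, hC, max B B', fun b U => ?_⟩
  obtain ⟨n₀, h0⟩ := h b U
  refine ⟨max (max n₀ 3) (max n₁ n₂), fun x hx A hA => ?_⟩
  obtain ⟨E, hE, h3⟩ := h0 x (by omega) A hA
  refine ⟨E, hE, fun a ha haE hp => ?_⟩
  have hl := Pool.Agent.Y843.AC.log_one (show 3 ≤ x by omega)
  have hV : 0 ≤ V (fun i => (a i : ℤ)) x := by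
    rw [V_eq]
    unfold Pool.Agent.Y843.HS.VV
    apply prod_nonneg
    intro p hpp
    exact Pool.Agent.Y843.HS.one_sub_nonneg (roots_ok _ hp p (Pool.Agent.Y843.HS.Pr_prime hpp)).2.2
  have h4 := h3 a ha haE hp
  refine ⟨le_trans ?_ h4, fun D hD hDx => ⟨le_trans ?_ ((h1 x (by omega) _ hp 0 D
    ((pow_le_pow_right₀ hl (le_max_left _ _)).trans hD) hDx _ (P_sub _ _) (P_R _ _ _)).1 h4),
    h2 x (by omega) _ hp 0 D ((pow_le_pow_right₀ hl (le_max_right _ _)).trans hD) _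
      (P_sub _ _) (P_R _ _ _)⟩⟩
  · exact mul_le_mul_of_nonneg_right (min_le_left _ _) (by positivity)
  · exact mul_le_mul_of_nonneg_right (min_le_right _ _) (by positivity)

/-- Let `s ≥ 0`, `k ≥ 1`. `a` is a vector of `s` integers which is `Possible` (every integer is, if `s = 1`),
`V a x = ∏_{p ≤ x} (1 - ρ(p)/p)`, which is of the order `1 / log x` for a fixed integer `a ≠ - m ^ 2`.

1. For all large `x` and all `A i` between `x ^ 2 / b` and `b x ^ 2`: for all but `∏ A i / log ^ U x` of the vectors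
  `a` with `1 ≤ a i ≤ A i` (`b` and `U` are arbitrary; the constants `c`, `C`, `B` do not depend on them) there are
  at least `c x V` integers `n ≤ x` with all `n ^ 2 + a i` prime, and between `c x D V ^ k` and `C x D V ^ k`
  progressions of `k` of them with differences at most `D`, for all `D` in `[log ^ B x, x]`. (This is the last
  assertion of the theorem.)
2. For every integer `b` not of the form `- m ^ 2`: for all large `X`, all `A ≤ X ^ (301/300)` and all `D`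
  between `log ^ B X` and `X`, the number of the progressions of `k` terms, with differences at most `D`, of
  `n` in `(A, A + X]` for which `|n ^ 2 + b|` has at most three prime factors, all at least `X ^ (1/4)`, is
  between `c X D / log ^ k X` and `C X D / log ^ k X`.
3. There is `t = t(s)` such that for all large `x`, UNIFORMLY in `a`, `Y` and `D` in `[log ^ B x, x]`: the `n` in
  `(Y, Y + x]` such that no `n ^ 2 + a i` has a prime factor `≤ x ^ (1/t)` have between `c x D V ^ k` and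
  `C x D V ^ k` progressions.
4. Let `S` be a set of `n` in `(Y, Y + x]` with all `|n ^ 2 + a i|` prime, or no `n ^ 2 + a i` with a prime
  factor `≤ x ^ (1/u)`. Uniformly in `a`, `Y`, `S` and `D ≥ log ^ B x`: `S` has at most `C x D V ^ k`
  progressions; if `D ≤ x`: it has at least `c x D V ^ k` if it has at least `δ x V` elements, and conversely it
  has at least `c x V` elements if it has at least `δ x D V ^ k` progressions; all its elements but `δ x V` lie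
  in progressions in `S` with differences at most `log ^ B x`.
5. For every family `M` of pairs `(x, a)`: the number of the `n ≤ x` with all `|n ^ 2 + a i|` prime is
  `≫ x V` on `M` if and only if the number of the progressions of `k` of them with differences at most `D`
  is of the order `x D V ^ k` for all `D` between a power of `log x` and `x`; and if and only if (with one
  constant) it is `≫ x D V ^ k` for a single `D ≥ log ^ B x` for every pair of `M`, for every `B`. -/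
theorem result (s : ℕ) :
    (∀ b : ℤ, ¬ IsSquare (-b) → ∀ k : ℕ, 1 ≤ k →
      (∃ c C : ℝ, 0 < c ∧ 0 < C ∧ ∃ B X₀ : ℕ, ∀ X : ℕ, X₀ ≤ X →
        ∀ A D : ℕ, (A : ℝ) ≤ (X : ℝ) ^ (301 / 300 : ℝ) → Real.log X ^ B ≤ D → D ≤ X →
        c * (X * D / Real.log X ^ k) ≤ AP k D (P3 b A X) ∧
          (AP k D (P3 b A X) : ℝ) ≤ C * (X * D / Real.log X ^ k)) ∧
      Possible (fun _ : Fin 1 => b) ∧
      (∃ c C : ℝ, 0 < c ∧ 0 < C ∧ ∀ x : ℕ, 2 ≤ x →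
        c / Real.log x ≤ V (fun _ : Fin 1 => b) x ∧ V (fun _ : Fin 1 => b) x ≤ C / Real.log x)) ∧
    (∃ t : ℕ, 1 ≤ t ∧ ∀ k : ℕ, 1 ≤ k → ∃ c C : ℝ, 0 < c ∧ 0 < C ∧ ∃ B x₀ : ℕ,
      ∀ x : ℕ, x₀ ≤ x → ∀ (a : Fin s → ℤ), Possible a → ∀ Y D : ℕ, Real.log x ^ B ≤ D → D ≤ x →
      ∀ S : Finset ℕ, (∀ n, n ∈ S ↔ n ∈ Ioc Y (Y + x) ∧ Rough t a x n) →
        c * (x * D * V a x ^ k) ≤ AP k D S ∧ (AP k D S : ℝ) ≤ C * (x * D * V a x ^ k)) ∧
    ∀ k : ℕ, 1 ≤ k →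
      (∀ u : ℕ, 1 ≤ u →
        (∃ C : ℝ, 0 < C ∧ ∃ B x₀ : ℕ, ∀ x : ℕ, x₀ ≤ x → ∀ (a : Fin s → ℤ), Possible a → ∀ Y D : ℕ,
          Real.log x ^ B ≤ D → ∀ S : Finset ℕ, S ⊆ Ioc Y (Y + x) →
          (∀ n ∈ S, (∀ i, ((n : ℤ) ^ 2 + a i).natAbs.Prime) ∨ Rough u a x n) →
          (AP k D S : ℝ) ≤ C * (x * D * V a x ^ k)) ∧
        (∀ δ : ℝ, 0 < δ → ∃ c : ℝ, 0 < c ∧ ∃ B x₀ : ℕ, ∀ x : ℕ, x₀ ≤ x → ∀ (a : Fin s → ℤ), Possible a →
          ∀ Y D : ℕ, Real.log x ^ B ≤ D → D ≤ x → ∀ S : Finset ℕ, S ⊆ Ioc Y (Y + x) →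
          (∀ n ∈ S, (∀ i, ((n : ℤ) ^ 2 + a i).natAbs.Prime) ∨ Rough u a x n) →
          (δ * (x * V a x) ≤ S.card → c * (x * D * V a x ^ k) ≤ AP k D S) ∧
          (δ * (x * D * V a x ^ k) ≤ AP k D S → c * (x * V a x) ≤ S.card)) ∧
        (∀ δ : ℝ, 0 < δ → ∃ B x₀ : ℕ, ∀ x : ℕ, x₀ ≤ x → ∀ (a : Fin s → ℤ), Possible a → ∀ Y : ℕ,
          ∀ S : Finset ℕ, S ⊆ Ioc Y (Y + x) →
          (∀ n ∈ S, (∀ i, ((n : ℤ) ^ 2 + a i).natAbs.Prime) ∨ Rough u a x n) →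
          ((outside k (Real.log x ^ B) S).card : ℝ) ≤ δ * (x * V a x))) ∧
      (∀ M : Set (ℕ × (Fin s → ℤ)), (∀ q ∈ M, Possible q.2) →
        ((∃ c : ℝ, 0 < c ∧ ∃ x₀ : ℕ, ∀ q ∈ M, x₀ ≤ q.1 → c * (q.1 * V q.2 q.1) ≤ (P q.2 q.1).card) ↔
          ∃ c C : ℝ, 0 < c ∧ 0 < C ∧ ∃ B x₀ : ℕ, ∀ q ∈ M, x₀ ≤ q.1 → ∀ D : ℕ, Real.log q.1 ^ B ≤ D →
            D ≤ q.1 → c * (q.1 * D * V q.2 q.1 ^ k) ≤ AP k D (P q.2 q.1) ∧
              (AP k D (P q.2 q.1) : ℝ) ≤ C * (q.1 * D * V q.2 q.1 ^ k)) ∧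
        ((∃ c : ℝ, 0 < c ∧ ∃ x₀ : ℕ, ∀ q ∈ M, x₀ ≤ q.1 → c * (q.1 * V q.2 q.1) ≤ (P q.2 q.1).card) ↔
          ∃ c : ℝ, 0 < c ∧ ∀ B : ℕ, ∃ x₀ : ℕ, ∀ q ∈ M, x₀ ≤ q.1 → ∃ D : ℕ, Real.log q.1 ^ B ≤ D ∧
            D ≤ q.1 ∧ c * (q.1 * D * V q.2 q.1 ^ k) ≤ AP k D (P q.2 q.1))) ∧
      ∃ c C : ℝ, 0 < c ∧ 0 < C ∧ ∃ B : ℕ, ∀ b U : ℕ, ∃ x₀ : ℕ, ∀ x : ℕ, x₀ ≤ x → ∀ A : Fin s → ℕ,
        (∀ i, A i ≤ b * x ^ 2 ∧ x ^ 2 ≤ b * A i) →
        ∃ E : Finset (Fin s → ℕ), (E.card : ℝ) ≤ (∏ i, (A i : ℝ)) / Real.log x ^ U ∧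
          ∀ a : Fin s → ℕ, (∀ i, 1 ≤ a i ∧ a i ≤ A i) → a ∉ E → Possible (fun i => (a i : ℤ)) →
            c * (x * V (fun i => (a i : ℤ)) x) ≤ (P (fun i => (a i : ℤ)) x).card ∧
            ∀ D : ℕ, Real.log x ^ B ≤ D → D ≤ x →
              c * (x * D * V (fun i => (a i : ℤ)) x ^ k) ≤ AP k D (P (fun i => (a i : ℤ)) x) ∧
                (AP k D (P (fun i => (a i : ℤ)) x) : ℝ) ≤ C * (x * D * V (fun i => (a i : ℤ)) x ^ k) :=
  ⟨fun b hb k hk => ⟨three b hb k hk, possible_one b, V_one b hb⟩, almost s, fun k hk =>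
    ⟨fun u hu => ⟨up s k hk u hu, fun δ hδ => dn s k hk u hu δ hδ, fun δ hδ => her s k hk u δ hu hδ⟩,
      fun M hM => order s k hk M hM, primes_AP s k hk⟩⟩

end Pool.Agent.Results.MP_391708_nt.ProgressionCounts
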