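import Pool.Agent.Y869.SQ.Out

set_option autoImplicit false

/-!
Exact squarefreeness for all quadratics `n ^ 2 + a`, four sign patterns, in classes of the values.

Let `-a` not be a square. Then for all four sign patterns `(s₁, s₂)`, all `z` and all classes
`n ^ 2 = r ^ 2 mod q` that do not force a square divisor of `n ^ 2 + a` at a prime dividing `q`,
at least `N / (log N) ^ (log 2 + ε)` of the integers `n ≤ N` of the class have `n ^ 2 + a = d d'`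
squarefree, without prime factors up to `z` outside those of `q`, with `d, d'` of order `n`,
`μ(d) = s₁`, `μ(d') = s₂`; and the pairs `(d, d')` of this kind in `[1, N] ^ 2` are of number `≫ N`.
-/

namespace Pool.Agent.Results.MP_391708_nt.SquarefreeFourPatterns

theorem result (a : ℤ) (ha : ¬ IsSquare (-a)) (z q : ℕ) (hq : 1 ≤ q) (r : ℤ)
    (hr : ∀ l : ℕ, l.Prime → l ∣ q → ¬ (l : ℤ) ^ 2 ∣ r ^ 2 + a) (s₁ s₂ : ℤ)
    (hs₁ : s₁ = 1 ∨ s₁ = -1) (hs₂ : s₂ = 1 ∨ s₂ = -1) :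
    ∃ L : ℕ,
      (∀ ε : ℝ, 0 < ε → ∃ N₀ : ℕ, ∀ N : ℕ, N₀ ≤ N → (N : ℝ) / Real.log N ^ (Real.log 2 + ε) ≤
        (Set.ncard {n : ℕ | 1 ≤ n ∧ n ≤ N ∧ (q : ℤ) ∣ (n : ℤ) ^ 2 - r ^ 2 ∧
          (∀ l : ℕ, l.Prime → (l : ℤ) ∣ (n : ℤ) ^ 2 + a → l ∣ q ∨ z < l) ∧ ∃ d d' : ℕ,
          d ≤ L * n ∧ d' ≤ L * n ∧ (d : ℤ) * d' = (n : ℤ) ^ 2 + a ∧ Squarefree (d * d') ∧
          ArithmeticFunction.moebius d = s₁ ∧ ArithmeticFunction.moebius d' = s₂} : ℝ)) ∧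
      ∃ κ : ℝ, 0 < κ ∧ ∃ N₀ : ℕ, ∀ N : ℕ, N₀ ≤ N → κ * N ≤
        (Set.ncard {p : ℕ × ℕ | p.1 ≤ N ∧ p.2 ≤ N ∧
          (∃ n : ℕ, 1 ≤ n ∧ (q : ℤ) ∣ (n : ℤ) ^ 2 - r ^ 2 ∧
            (∀ l : ℕ, l.Prime → (l : ℤ) ∣ (n : ℤ) ^ 2 + a → l ∣ q ∨ z < l) ∧
            (p.1 : ℤ) * p.2 = (n : ℤ) ^ 2 + a) ∧
          Squarefree (p.1 * p.2) ∧ ArithmeticFunction.moebius p.1 = s₁ ∧
          ArithmeticFunction.moebius p.2 = s₂} : ℝ) :=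
  Pool.Agent.Y869.SQ.final ha z hq hr hs₁ hs₂

end Pool.Agent.Results.MP_391708_nt.SquarefreeFourPatterns
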