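import Pool.Agent.Y751.SW.Both

set_option autoImplicit false

/-!
# Typical points of the set of the numbers `n` with `|n ^ 2 + a|` prime

Let `a` be an integer such that `-a` is not a square and let `R a r` be the set of the `n` for which
all prime factors of `n ^ 2 + a` are larger than `n ^ (1 / r)`. It contains, up to finitely many
elements, the set counted by `P_a`. For an ARBITRARY subset `A` of `R a r`, in every short interval all
but a small proportion of the expected number of elements of `A` are typical points of `A`: all windows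
around them contain the expected order of magnitude of elements of `A`, with a constant density at all
but boundedly many dyadic scales, and in all windows whose length is at least a fixed power of `log X`
almost all elements of `A` are terms of long arithmetic progressions of elements of `A` in the same
window, with difference at most this power of `log X`.
-/

namespace Pool.Agent.Results.MP_391708_nt.TypicalPoints

open Finset Filter
open Pool.Agent.TH977.PW (N)
open Pool.Agent.Y751.SW (Typical)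

/-- All prime factors of `n ^ 2 + a` are larger than `n ^ (1 / r)`. -/
def R (a : ℤ) (r : ℕ) : Set ℕ :=
  {n | ∀ p : ℕ, p.Prime → (p : ℤ) ∣ (n : ℤ) ^ 2 + a → (n : ℝ) ^ (1 / (r : ℝ)) < (p : ℝ)}

/-- In addition `n ^ 2 + a` has at most `r` prime factors. -/
def P (a : ℤ) (r : ℕ) : Set ℕ :=
  {n | n ∈ R a r ∧ ((n : ℤ) ^ 2 + a).natAbs.primeFactorsList.length ≤ r}

/-- **Typical points of the set of the numbers `n` with `|n ^ 2 + a|` prime.** -/
theorem result (a : ℤ) (ha : ¬ IsSquare (-a)) (θ : ℝ) (hθ : 0 < θ) (hθ1 : θ ≤ 1) :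
    ∃ r₀ : ℕ, 2 ≤ r₀ ∧ ∀ r : ℕ, r₀ ≤ r →
      (∀ᶠ n : ℕ in atTop, ((n : ℤ) ^ 2 + a).natAbs.Prime → n ∈ R a r) ∧
      (∃ κ c : ℝ, 0 < κ ∧ 0 < c ∧ ∀ (l : ℕ) (η : ℝ), 2 ≤ l → 0 < η → ∃ B : ℕ,
        ∀ᶠ X : ℕ in atTop, ∀ Y : ℕ, (X : ℝ) ^ θ ≤ Y → 4 * Y ≤ X →
          κ * Y / Real.log X ≤
            N {m | m ∈ P a r ∧ Typical (P a r) 1 l c η B X Y m} X (X + Y)) ∧
      ∀ ε : ℝ, 0 < ε → ∃ c : ℝ, 0 < c ∧ ∀ (l : ℕ) (η : ℝ), 2 ≤ l → 0 < η → ∃ B : ℕ,
        ∀ᶠ X : ℕ in atTop, ∀ Y : ℕ, (X : ℝ) ^ θ ≤ Y → 4 * Y ≤ X → ∀ A : Set ℕ, A ⊆ R a r →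
          (N {m | m ∈ A ∧ ¬ Typical A 1 l c η B X Y m} X (X + Y) : ℝ) ≤
            ε * Y / Real.log X := by
  have hval : ∀ m : ℕ, (1 : ℤ) * (m : ℤ) ^ 2 + 0 * m + a = (m : ℤ) ^ 2 + a := fun m => by ring
  obtain ⟨r0, hr0, h0⟩ := Pool.Agent.Y751.SW.quad_both 1 0 a one_pos
    (fun p hp h => by
      have : p ∣ 1 := by exact_mod_cast h.1
      exact hp.one_lt.ne' (Nat.dvd_one.1 this))
    (by
      rintro ⟨s, hs⟩
      have h1 : s * s = 4 * (-a) := by linarith
      have h2 : Even s := by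
        have : Even (s * s) := ⟨2 * (-a), by linarith⟩
        rcases Int.even_mul.1 this with h | h <;> exact h
      obtain ⟨t, ht⟩ := h2
      exact ha ⟨t, by rw [ht] at h1; linarith⟩)
    (fun h => by
      have h1 := h.1
      rw [add_zero] at h1
      exact absurd h1 (by decide))
    (R a) (P a) (fun r n hn => hn.1)
    (fun r m _ hm p hp hd => hm p hp (by rwa [hval] at hd))
    (fun r m _ h1 h2 => ⟨fun p hp hd => h1 p hp (by rwa [hval]), by rwa [hval] at h2⟩) θ hθ hθ1
  simp only [pow_one] at h0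
  refine ⟨r0, hr0, fun r hr => ⟨?_, (h0 r hr).1, (h0 r hr).2⟩⟩
  filter_upwards [eventually_ge_atTop (a.natAbs + 2)] with n hn hq p hp hd
  have hl := Pool.Agent.Y175.PW.quad_large 1 0 a one_pos n (by simpa using hn)
  rw [hval] at hl
  exact Pool.Agent.Y175.PW.rough_of_prime r n _ (hr0.trans hr) (by omega) hq hl p hp hd

end Pool.Agent.Results.MP_391708_nt.TypicalPoints
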